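import Pool.Agent.Run7.h342.MD.Stm
import Pool.Agent.Run7.h594.MD.DG

/-!
Piece ETA of project MD (helper342).
-/

namespace Run7.h939.MD

open MvPolynomial Run7.h342.MD

noncomputable section

section abs

variable {A k σ : Type} [CommRing A] [Field k] [Fintype σ]

/-- Taylor expansion to first order. -/
theorem taylor [DecidableEq σ] (ε : A →+* k) (s : k →+* A) (hs : ∀ a, ε (s a) = a) (z : σ → A)
    (R : MvPolynomial σ k) :
    eval₂ s z R - s (eval (fun q => ε (z q)) R) -
      ∑ q, s (eval (fun q => ε (z q)) (pderiv q R)) * (z q - s (ε (z q))) ∈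
      (RingHom.ker ε) ^ 2 := by
  induction R using MvPolynomial.induction_on with
  | C a =>
    simp
  | add p q hp hq =>
    have h := Ideal.add_mem _ hp hq
    convert h using 1
    simp only [eval₂_add, map_add, add_mul, Finset.sum_add_distrib]
    ring
  | mul_X p j hp =>
    set I := RingHom.ker ε with hI
    have hh : ∀ q, z q - s (ε (z q)) ∈ I := by
      intro q
      rw [hI, RingHom.mem_ker, map_sub, hs, sub_self]
    have h1 := Ideal.mul_mem_right (z j) _ hp
    have h2 : (∑ q, s (eval (fun q => ε (z q)) (pderiv q p)) * (z q - s (ε (z q)))) *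
        (z j - s (ε (z j))) ∈ I ^ 2 := by
      rw [pow_two]
      refine Ideal.mul_mem_mul ?_ (hh j)
      exact Ideal.sum_mem _ fun q _ => Ideal.mul_mem_left _ _ (hh q)
    have h := Ideal.add_mem _ h1 h2
    convert h using 1
    have h3 : ∀ q, eval (fun q => ε (z q)) (pderiv q (p * X j)) =
        eval (fun q => ε (z q)) p * (if q = j then 1 else 0) +
          ε (z j) * eval (fun q => ε (z q)) (pderiv q p) := by
      intro q
      rw [Derivation.leibniz, pderiv_X, smul_eq_mul, smul_eq_mul, Pi.single_apply, map_add,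
        map_mul, map_mul, eval_X]
      congr 2
      by_cases h : q = j
      · subst h; simp
      · rw [if_neg h, if_neg (fun h' => h h'.symm), map_zero]
    have h4 : ∑ q, s (eval (fun q => ε (z q)) (pderiv q (p * X j))) * (z q - s (ε (z q))) =
        s (eval (fun q => ε (z q)) p) * (z j - s (ε (z j))) + s (ε (z j)) *
          ∑ q, s (eval (fun q => ε (z q)) (pderiv q p)) * (z q - s (ε (z q))) := by
      have h5 : ∀ q, s (eval (fun q => ε (z q)) (pderiv q (p * X j))) * (z q - s (ε (z q))) =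
          (if q = j then s (eval (fun q => ε (z q)) p) * (z q - s (ε (z q))) else 0) +
          s (ε (z j)) * (s (eval (fun q => ε (z q)) (pderiv q p)) * (z q - s (ε (z q)))) := by
        intro q
        rw [h3, map_add, map_mul, map_mul]
        by_cases h : q = j
        · rw [if_pos h, if_pos h, map_one]; ring
        · rw [if_neg h, if_neg h, map_zero]; ring
      rw [Finset.sum_congr rfl fun q _ => h5 q, Finset.sum_add_distrib, Finset.mul_sum]
      congr 1
      rw [Finset.sum_ite_eq' Finset.univ j]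
      simp
    rw [h4, eval₂_mul, eval₂_X, map_mul, eval_X, map_mul]
    ring

/-- The abstract form of ETA. -/
theorem abs_eta {ι : Type} (ε : A →+* k) (s : k →+* A) (hs : ∀ a, ε (s a) = a)
    (δ : ι → A → k) (hadd : ∀ Y a b, δ Y (a + b) = δ Y a + δ Y b)
    (hmul : ∀ Y a b, δ Y (a * b) = ε a * δ Y b + ε b * δ Y a) (hconst : ∀ Y a, δ Y (s a) = 0)
    (z : σ → A) (hz : ∀ α : σ → k, (∀ Y, ∑ q, α q * δ Y (z q) = 0) → α = 0)
    (R : MvPolynomial σ k) (c f : A) (hc : ε c = 1) (hf : ε f = 0) (hδ : ∀ Y, δ Y f = 0)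
    (hR : c * f = eval₂ s z R) : f ∈ (RingHom.ker ε) ^ 2 := by
  classical
  have h1 := taylor ε s hs z R
  rw [← hR] at h1
  have h2 : eval (fun q => ε (z q)) R = 0 := by
    have h3 : ε (eval₂ s z R) = eval (fun q => ε (z q)) R := by
      rw [hom_eval₂]
      have : ε.comp s = RingHom.id k := RingHom.ext hs
      rw [this]
      rfl
    rw [← h3, ← hR, map_mul, hf, mul_zero]
  rw [h2, map_zero, sub_zero] at h1
  -- `δ` vanishes on the square of the ideal
  have h0 : ∀ Y, δ Y 0 = 0 := fun Y => by rw [← map_zero s, hconst]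
  have hsq : ∀ Y, ∀ a ∈ (RingHom.ker ε) ^ 2, δ Y a = 0 := by
    intro Y a ha
    rw [pow_two] at ha
    refine Submodule.mul_induction_on ha ?_ ?_
    · intro x hx y hy
      rw [hmul, RingHom.mem_ker.1 hx, RingHom.mem_ker.1 hy, zero_mul, zero_mul, add_zero]
    · intro x y hx hy
      rw [hadd, hx, hy, add_zero]
  have hneg : ∀ Y a, δ Y (-a) = -δ Y a := by
    intro Y a
    have h3 := hadd Y a (-a)
    rw [add_neg_cancel, h0] at h3
    linear_combination -h3
  have hsum : ∀ Y (g : σ → A), δ Y (∑ q, g q) = ∑ q, δ Y (g q) := by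
    intro Y g
    let L : A →+ k := { toFun := δ Y, map_zero' := h0 Y, map_add' := hadd Y }
    exact map_sum L g Finset.univ
  have h5 : (fun q => eval (fun q => ε (z q)) (pderiv q R)) = 0 := by
    apply hz
    intro Y
    have h6 := hsq Y _ h1
    rw [sub_eq_add_neg, hadd, hmul, hδ, hf, mul_zero, zero_mul, zero_add, zero_add, hneg, hsum,
      neg_eq_zero] at h6
    rw [← h6]
    refine Finset.sum_congr rfl fun q _ => ?_
    rw [hmul, hs, sub_eq_add_neg, hadd, hneg, hconst, hconst, mul_zero, neg_zero, add_zero,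
      add_zero]
  have h7 : c * f ∈ (RingHom.ker ε) ^ 2 := by
    have h8 : ∑ q, s (eval (fun q => ε (z q)) (pderiv q R)) * (z q - s (ε (z q))) = 0 := by
      refine Finset.sum_eq_zero fun q _ => ?_
      have := congrFun h5 q
      rw [Pi.zero_apply] at this
      rw [this, map_zero, zero_mul]
    rw [h8, sub_zero] at h1
    exact h1
  have h9 : (c - 1) * f ∈ (RingHom.ker ε) ^ 2 := by
    rw [pow_two]
    refine Ideal.mul_mem_mul ?_ (RingHom.mem_ker.2 hf)
    rw [RingHom.mem_ker, map_sub, hc, map_one, sub_self]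
  have h10 := Ideal.sub_mem _ h7 h9
  have h11 : c * f - (c - 1) * f = f := by ring
  rwa [h11] at h10

end abs

section conc

open Run7.h594.MD

variable {n : ℕ} {k : Type} [Field k]

theorem ext_gl [Infinite k] {P Q : MvPolynomial (Fin n × Fin n) k}
    (h : ∀ g : GL (Fin n) k, eval (ent (g : Matrix (Fin n) (Fin n) k)) P =
      eval (ent (g : Matrix (Fin n) (Fin n) k)) Q) : P = Q := by
  have hD : Dt n k ≠ 0 := Matrix.det_mvPolynomialX_ne_zero (Fin n) k
  have h1 : (P - Q) * Dt n k = 0 := by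
    apply MvPolynomial.funext
    intro x
    set A : Matrix (Fin n) (Fin n) k := Matrix.of fun i j => x (i, j) with hA
    have hx : x = ent A := by
      funext q
      rfl
    rw [hx, map_mul, map_sub, eval_Dt, map_zero]
    by_cases hdet : A.det = 0
    · rw [hdet, mul_zero]
    · have hu : IsUnit A := (Matrix.isUnit_iff_isUnit_det A).2 (isUnit_iff_ne_zero.2 hdet)
      obtain ⟨g, hg⟩ := hu
      have e1 := h g
      rw [hg] at e1
      rw [e1, sub_self, zero_mul]
  exact sub_eq_zero.1 ((mul_eq_zero.1 h1).resolve_right hD)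

/-- the functions `x_q y ^ (d - 2)` -/
def zf (d : ℕ) (o : Fin n) (q : Fin n × Fin n) : GL (Fin n) k → k := fun g =>
  (g : Matrix (Fin n) (Fin n) k) q.1 q.2 * (g : Matrix (Fin n) (Fin n) k) o o ^ (d - 2)

theorem zf_rep (d : ℕ) (o : Fin n) (q : Fin n × Fin n) :
    RepG (zf (k := k) d o q) (X q * X (o, o) ^ (d - 2)) 0 := by
  intro g
  rw [map_mul, map_pow, eval_X, eval_X, pow_zero, mul_one]
  rfl

theorem zf_mem (d : ℕ) (hd : 2 ≤ d) (o : Fin n) (q : Fin n × Fin n) :
    zf (k := k) d o q ∈ Cm n d k := by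
  refine ⟨⟨_, _, zf_rep d o q⟩, fun ζ g g' hζ hg => ?_⟩
  unfold zf
  rw [hg, Matrix.smul_apply, Matrix.smul_apply, smul_eq_mul, smul_eq_mul, mul_pow]
  have h1 : ζ * ζ ^ (d - 2) = 1 := by
    rw [← pow_succ', ← hζ]
    congr 1
    omega
  linear_combination ((g : Matrix (Fin n) (Fin n) k) q.1 q.2 *
    (g : Matrix (Fin n) (Fin n) k) o o ^ (d - 2)) * h1

/-- powers of the determinant -/
def df (d m : ℕ) : GL (Fin n) k → k := fun g =>
  (g : Matrix (Fin n) (Fin n) k).det ^ ((d - 1) * m)

theorem df_mem (d m : ℕ) : df (k := k) (n := n) d m ∈ Cm n d k := by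
  refine ⟨⟨Dt n k ^ ((d - 1) * m), 0, fun g => ?_⟩, fun ζ g g' hζ hg => ?_⟩
  · rw [map_pow, eval_Dt, pow_zero, mul_one]
    rfl
  · unfold df
    rw [hg, Matrix.det_smul, mul_pow, ← pow_mul, ← mul_assoc, mul_comm (Fintype.card (Fin n)),
      mul_assoc, pow_mul, hζ, one_pow, one_mul]

theorem dG_zf [Infinite k] (d : ℕ) (o : Fin n) (q : Fin n × Fin n)
    (Y : Matrix (Fin n) (Fin n) k) : dG (zf (k := k) d o q) Y =
      Y q.1 q.2 + (if q.1 = q.2 then 1 else 0) * (((d - 2 : ℕ) : k) * Y o o) := by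
  have e1 : eval (ent (1 : Matrix (Fin n) (Fin n) k)) (X (o, o)) = 1 := by
    rw [eval_X]
    exact Matrix.one_apply_eq o
  have e2 : eval (ent (1 : Matrix (Fin n) (Fin n) k)) (X q) = if q.1 = q.2 then 1 else 0 := by
    rw [eval_X]
    exact Matrix.one_apply
  rw [dg_rep (zf_rep d o q), dd_mul, dd_pow _ _ _ e1, dd_X, dd_X, map_pow, e1, e2, Nat.cast_zero,
    zero_mul, zero_mul, sub_zero, one_pow, one_mul, add_comm]
  rfl

/-- monomials of a polynomial which is invariant under the roots of unity -/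
theorem supp_inv [Infinite k] {e : ℕ} {ζ : k} (hζ : IsPrimitiveRoot ζ e)
    (P : MvPolynomial (Fin n × Fin n) k)
    (hP : ∀ g g' : GL (Fin n) k, (g' : Matrix (Fin n) (Fin n) k) =
      ζ • (g : Matrix (Fin n) (Fin n) k) → eval (ent (g' : Matrix (Fin n) (Fin n) k)) P =
        eval (ent (g : Matrix (Fin n) (Fin n) k)) P) (he : e ≠ 0) (s : Fin n × Fin n →₀ ℕ)
    (hs : s ∈ P.support) : e ∣ ∑ q, s q := by
  classical
  have hζ0 : ζ ≠ 0 := hζ.ne_zero he
  set Q : MvPolynomial (Fin n × Fin n) k :=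
    ∑ s ∈ P.support, monomial s (coeff s P * ζ ^ (∑ q, s q)) with hQ
  have h1 : Q = P := by
    apply ext_gl
    intro g
    obtain ⟨g', hg'⟩ : ∃ g' : GL (Fin n) k, (g' : Matrix (Fin n) (Fin n) k) =
        ζ • (g : Matrix (Fin n) (Fin n) k) := by
      have hu : IsUnit (ζ • (g : Matrix (Fin n) (Fin n) k)) := by
        rw [Matrix.isUnit_iff_isUnit_det, Matrix.det_smul, isUnit_iff_ne_zero]
        exact mul_ne_zero (pow_ne_zero _ hζ0) ((Matrix.isUnit_iff_isUnit_det _).1 g.isUnit).ne_zero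
      exact hu
    rw [← hP g g' hg', hg', eval_eq' (ent (ζ • (g : Matrix (Fin n) (Fin n) k))) P, hQ, map_sum]
    refine Finset.sum_congr rfl fun s _ => ?_
    rw [eval_monomial, Finsupp.prod_fintype _ _ (fun i => pow_zero _)]
    have h2 : ∀ q, ent (ζ • (g : Matrix (Fin n) (Fin n) k)) q ^ s q =
        ζ ^ s q * ent (g : Matrix (Fin n) (Fin n) k) q ^ s q := by
      intro q
      rw [← mul_pow]
      rfl
    rw [Finset.prod_congr rfl fun q _ => h2 q, Finset.prod_mul_distrib,
      Finset.prod_pow_eq_pow_sum, mul_assoc]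
  have h3 : coeff s Q = coeff s P * ζ ^ (∑ q, s q) := by
    rw [hQ, coeff_sum, Finset.sum_eq_single s]
    · rw [coeff_monomial, if_pos rfl]
    · intro t _ ht
      rw [coeff_monomial, if_neg ht]
    · intro h; exact absurd hs h
  rw [h1] at h3
  have h4 : coeff s P ≠ 0 := mem_support_iff.1 hs
  have h5 : ζ ^ (∑ q, s q) = 1 := by
    have h6 : coeff s P * (ζ ^ (∑ q, s q) - 1) = 0 := by linear_combination -h3
    exact sub_eq_zero.1 ((mul_eq_zero.1 h6).resolve_left h4)
  exact (hζ.pow_eq_one_iff_dvd _).1 h5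

end conc

theorem t_ETA (n d : ℕ) (k : Type) [Field k] [IsAlgClosed k] [CharZero k]
    (hn : 3 ≤ n) (hd : 2 ≤ d) (dg : S_DG n k) : S_ETA n d k := by
  classical
  intro f hf hfd
  let o : Fin n := ⟨0, by omega⟩
  let ε : Cm n d k →+* k := (Pi.evalRingHom (fun _ : GL (Fin n) k => k) 1).comp
    (Cm n d k).toSubring.subtype
  let s : k →+* Cm n d k := algebraMap k (Cm n d k)
  change f ∈ (RingHom.ker ε) ^ 2
  obtain ⟨ζ, hζ⟩ : ∃ ζ : k, IsPrimitiveRoot ζ (d - 1) := by
    have : NeZero ((d - 1 : ℕ) : k) := ⟨by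
      rw [Nat.cast_ne_zero]
      omega⟩
    exact HasEnoughRootsOfUnity.exists_primitiveRoot k (d - 1)
  obtain ⟨p, m, hp⟩ := f.2.1
  set P : MvPolynomial (Fin n × Fin n) k := p * Run7.h594.MD.Dt n k ^ ((d - 2) * m) with hP
  have hPf : ∀ g : GL (Fin n) k, eval (ent (g : Matrix (Fin n) (Fin n) k)) P =
      f.1 g * df d m g := by
    intro g
    rw [hP, map_mul, ← hp g, map_pow, Run7.h594.MD.eval_Dt]
    unfold df
    rw [mul_assoc, ← pow_add]
    congr 2
    obtain ⟨d', rfl⟩ : ∃ d', d = d' + 2 := ⟨d - 2, by omega⟩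
    have e1 : d' + 2 - 1 = d' + 1 := by omega
    have e2 : d' + 2 - 2 = d' := by omega
    rw [e1, e2]
    ring
  have hinv : ∀ s ∈ P.support, (d - 1) ∣ ∑ q, s q := by
    intro s hs
    refine supp_inv hζ P (fun g g' hg => ?_) (by omega) s hs
    rw [hPf, hPf, f.2.2 ζ g g' hζ.pow_eq_one hg, (df_mem d m).2 ζ g g' hζ.pow_eq_one hg]
  choose! j hj using hinv
  set N : ℕ := (d - 2) * ∑ s ∈ P.support, j s with hN
  have hjN : ∀ s ∈ P.support, (d - 2) * j s ≤ N := by
    intro s hs
    rw [hN]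
    exact Nat.mul_le_mul_left _ (Finset.single_le_sum (f := j) (fun _ _ => Nat.zero_le _) hs)
  let R : MvPolynomial (Fin n × Fin n) k := ∑ s ∈ P.support,
    C (coeff s P) * (∏ q, X q ^ s q) * X (o, o) ^ (N - (d - 2) * j s)
  let z : Fin n × Fin n → Cm n d k := fun q => ⟨zf d o q, zf_mem d hd o q⟩
  let c : Cm n d k := z (o, o) ^ N * ⟨df d m, df_mem d m⟩
  have hval : ∀ (S : MvPolynomial (Fin n × Fin n) k) (g : GL (Fin n) k),
      (eval₂ s z S : Cm n d k).1 g = eval (fun q => zf d o q g) S := by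
    intro S g
    let εg : Cm n d k →+* k := (Pi.evalRingHom (fun _ : GL (Fin n) k => k) g).comp
      (Cm n d k).toSubring.subtype
    change εg (eval₂ s z S) = _
    rw [hom_eval₂]
    rfl
  have hR : c * f = eval₂ s z R := by
    apply Subtype.ext
    funext g
    rw [hval]
    have e1 : (c * f : Cm n d k).1 g = zf d o (o, o) g ^ N * df d m g * f.1 g := rfl
    rw [e1, mul_assoc, mul_comm (df d m g), ← hPf, eval_eq', Finset.mul_sum]
    simp only [R, map_sum, map_mul, eval_C, map_prod, map_pow, eval_X]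
    refine Finset.sum_congr rfl fun s hs => ?_
    set y := (g : Matrix (Fin n) (Fin n) k) o o with hy
    have e2 : ∀ q, zf d o q g ^ s q = ent (g : Matrix (Fin n) (Fin n) k) q ^ s q *
        (y ^ (d - 2)) ^ s q := by
      intro q
      rw [← mul_pow]
      rfl
    have e3 : zf d o (o, o) g = y ^ (d - 1) := by
      unfold zf
      rw [← hy, ← pow_succ']
      congr 1
      omega
    rw [Finset.prod_congr rfl fun q _ => e2 q, Finset.prod_mul_distrib,
      Finset.prod_pow_eq_pow_sum, e3, hj s hs]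
    have e4 : (y ^ (d - 2)) ^ ((d - 1) * j s) * (y ^ (d - 1)) ^ (N - (d - 2) * j s) =
        (y ^ (d - 1)) ^ N := by
      obtain ⟨M, hM⟩ := Nat.exists_eq_add_of_le (hjN s hs)
      rw [hM, Nat.add_sub_cancel_left, ← pow_mul, ← pow_mul, ← pow_mul, ← pow_add]
      congr 1
      ring
    rw [← e4]
    ring
  refine abs_eta ε s (fun a => rfl) (fun (Y : Matrix (Fin n) (Fin n) k) (a : Cm n d k) => dG a.1 Y)
    (fun Y a b => dg.add a.1 b.1 a.2.1 b.2.1 Y) (fun Y a b => dg.mul a.1 b.1 a.2.1 b.2.1 Y)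
    (fun Y a => dg.const a Y) z ?_ R c f ?_ hf hfd hR
  · intro α hα
    have hα' : ∀ Y : Matrix (Fin n) (Fin n) k, ∑ q : Fin n × Fin n, α q *
        (Y q.1 q.2 + (if q.1 = q.2 then 1 else 0) * (((d - 2 : ℕ) : k) * Y o o)) = 0 := by
      intro Y
      refine (Finset.sum_congr rfl fun q _ => ?_).trans (hα Y)
      rw [← dG_zf]
    have h1 : ∀ q : Fin n × Fin n, q ≠ (o, o) → α q = 0 := by
      intro q hq
      have h2 := hα' (Matrix.single q.1 q.2 1)
      have h3 : (Matrix.single q.1 q.2 (1 : k)) o o = 0 := by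
        rw [Matrix.single_apply, if_neg]
        rintro ⟨h4, h5⟩
        exact hq (Prod.ext h4 h5)
      rw [Finset.sum_eq_single q] at h2
      · rw [h3, mul_zero, mul_zero, add_zero, Matrix.single_apply_same, mul_one] at h2
        exact h2
      · intro q' _ hq'
        rw [h3, mul_zero, mul_zero, add_zero, Matrix.single_apply, if_neg, mul_zero]
        rintro ⟨h4, h5⟩
        exact hq' (Prod.ext h4.symm h5.symm)
      · intro h; exact absurd (Finset.mem_univ _) h
    funext q
    by_cases hq : q = (o, o)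
    · have h2 := hα' (Matrix.single o o 1)
      rw [Finset.sum_eq_single (o, o)] at h2
      · rw [Matrix.single_apply_same, if_pos rfl, one_mul, mul_one] at h2
        have h3 : (1 : k) + ((d - 2 : ℕ) : k) ≠ 0 := by
          have : (1 : k) + ((d - 2 : ℕ) : k) = ((d - 2 + 1 : ℕ) : k) := by
            push_cast
            ring
          rw [this]
          exact Nat.cast_ne_zero.2 (Nat.succ_ne_zero _)
        rw [hq]
        exact (mul_eq_zero.1 h2).resolve_right h3
      · intro q' _ hq'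
        rw [h1 q' hq', zero_mul]
      · intro h; exact absurd (Finset.mem_univ _) h
    · exact h1 q hq
  · have e1 : ε c = zf d o (o, o) (1 : GL (Fin n) k) ^ N * df d m (1 : GL (Fin n) k) := rfl
    rw [e1]
    unfold zf df
    simp

end

end Run7.h939.MD
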