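import Pool.Agent.Run7.h342.MD.Stm
import Pool.Agent.H135R2.VS.Der

/-!
Piece JAC of project MD (helper342).
-/

namespace Run7.h939.MD

open MvPolynomial Run7.h342.MD

noncomputable section

section abs

variable {σ k : Type} [Field k] [Fintype σ]

/-- derivations on polynomials -/
theorem der_alg {L : Type} [Field L] [Algebra k L] [Algebra (MvPolynomial σ k) L]
    [IsScalarTower k (MvPolynomial σ k) L] (D : Derivation k L L) (P : MvPolynomial σ k) :
    D (algebraMap (MvPolynomial σ k) L P) =
      ∑ q, algebraMap (MvPolynomial σ k) L (pderiv q P) * D (algebraMap (MvPolynomial σ k) L (X q)) := by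
  classical
  induction P using MvPolynomial.induction_on with
  | C a =>
    have h1 : algebraMap (MvPolynomial σ k) L (C a) = algebraMap k L a := by
      rw [IsScalarTower.algebraMap_apply k (MvPolynomial σ k) L]
      rfl
    rw [h1, Derivation.map_algebraMap]
    simp
  | add p q hp hq =>
    simp only [map_add, hp, hq, add_mul, Finset.sum_add_distrib]
  | mul_X p j hp =>
    rw [map_mul, Derivation.leibniz, hp, smul_eq_mul, smul_eq_mul]
    have h1 : ∀ q, pderiv q (p * X j) = p * (if q = j then 1 else 0) + X j * pderiv q p := by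
      intro q
      rw [Derivation.leibniz, pderiv_X, smul_eq_mul, smul_eq_mul, Pi.single_apply]
      congr 2
      by_cases h : q = j
      · subst h; simp
      · rw [if_neg h, if_neg (fun h' => h h'.symm)]
    simp only [h1, map_add, map_mul, add_mul, Finset.sum_add_distrib]
    congr 1
    · rw [Finset.sum_eq_single j]
      · simp
      · intro b _ hb
        rw [if_neg hb]; simp
      · intro h; exact absurd (Finset.mem_univ _) h
    · rw [Finset.mul_sum]
      exact Finset.sum_congr rfl fun q _ => by ring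

/-- The Jacobian criterion for fractions, abstract form. -/
theorem abs_jac [CharZero k] [Infinite k] (a : ℕ) (P Q : Fin a → MvPolynomial σ k)
    (hQ : ∀ i, Q i ≠ 0)
    (hτ : AlgebraicIndependent k (fun i => algebraMap (MvPolynomial σ k)
      (FractionRing (MvPolynomial σ k)) (P i) / algebraMap (MvPolynomial σ k)
      (FractionRing (MvPolynomial σ k)) (Q i))) :
    ∃ (g : MvPolynomial σ k) (γ : Fin a → σ → MvPolynomial σ k), g ≠ 0 ∧
      ∀ i j, ∑ q, (pderiv q (P i) * Q i - P i * pderiv q (Q i)) * γ j q =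
        if i = j then g * Q i ^ 2 else 0 := by
  classical
  set L := FractionRing (MvPolynomial σ k) with hL
  have : CharZero L := charZero_of_injective_algebraMap (algebraMap k L).injective
  have hinj : Function.Injective (algebraMap (MvPolynomial σ k) L) := IsFractionRing.injective _ _
  have hD : ∀ j : Fin a, ∃ D : Derivation k L L, ∀ i, D (algebraMap (MvPolynomial σ k) L (P i) /
      algebraMap (MvPolynomial σ k) L (Q i)) = if i = j then 1 else 0 := fun j =>
    Pool.Agent.H135R2.VS.exists_der hτ (fun i => if i = j then 1 else 0)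
  choose D hD using hD
  obtain ⟨b, hb⟩ := IsLocalization.exist_integer_multiples_of_finset
    (nonZeroDivisors (MvPolynomial σ k))
    (Finset.univ.image fun p : Fin a × σ => D p.1 (algebraMap (MvPolynomial σ k) L (X p.2)))
  have hb' : ∀ (j : Fin a) (q : σ), ∃ γ : MvPolynomial σ k, algebraMap (MvPolynomial σ k) L γ =
      algebraMap (MvPolynomial σ k) L b * D j (algebraMap (MvPolynomial σ k) L (X q)) := by
    intro j q
    obtain ⟨γ, hγ⟩ := hb (D j (algebraMap (MvPolynomial σ k) L (X q)))
      (Finset.mem_image.2 ⟨(j, q), Finset.mem_univ _, rfl⟩)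
    refine ⟨γ, ?_⟩
    rw [hγ, Algebra.smul_def]
  choose γ hγ using hb'
  refine ⟨b, γ, nonZeroDivisors.ne_zero b.2, fun i j => ?_⟩
  apply hinj
  have hQi : algebraMap (MvPolynomial σ k) L (Q i) ≠ 0 := by
    intro h0
    exact hQ i (hinj (by rw [h0, map_zero]))
  have h1 := hD j i
  have h2 : D j (algebraMap (MvPolynomial σ k) L (P i)) =
      algebraMap (MvPolynomial σ k) L (P i) / algebraMap (MvPolynomial σ k) L (Q i) *
        D j (algebraMap (MvPolynomial σ k) L (Q i)) +
      algebraMap (MvPolynomial σ k) L (Q i) * (if i = j then 1 else 0) := by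
    rw [← h1, ← smul_eq_mul (a := algebraMap (MvPolynomial σ k) L (P i) / _),
      ← smul_eq_mul (a := algebraMap (MvPolynomial σ k) L (Q i)), ← Derivation.leibniz,
      div_mul_cancel₀ _ hQi]
  have h3 : ∑ q, algebraMap (MvPolynomial σ k) L
      (pderiv q (P i) * Q i - P i * pderiv q (Q i)) * D j (algebraMap (MvPolynomial σ k) L (X q)) =
      (algebraMap (MvPolynomial σ k) L (Q i)) ^ 2 * (if i = j then 1 else 0) := by
    have e1 : ∑ q, algebraMap (MvPolynomial σ k) L
        (pderiv q (P i) * Q i - P i * pderiv q (Q i)) * D j (algebraMap (MvPolynomial σ k) L (X q)) =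
        algebraMap (MvPolynomial σ k) L (Q i) * D j (algebraMap (MvPolynomial σ k) L (P i)) -
        algebraMap (MvPolynomial σ k) L (P i) * D j (algebraMap (MvPolynomial σ k) L (Q i)) := by
      rw [der_alg (D j) (P i), der_alg (D j) (Q i), Finset.mul_sum, Finset.mul_sum,
        ← Finset.sum_sub_distrib]
      refine Finset.sum_congr rfl fun q _ => ?_
      rw [map_sub, map_mul, map_mul]
      ring
    have e2 : algebraMap (MvPolynomial σ k) L (Q i) * (algebraMap (MvPolynomial σ k) L (P i) /
        algebraMap (MvPolynomial σ k) L (Q i)) = algebraMap (MvPolynomial σ k) L (P i) := by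
      rw [mul_comm, div_mul_cancel₀ _ hQi]
    rw [e1, h2, mul_add, ← mul_assoc, e2]
    ring
  have h4 : algebraMap (MvPolynomial σ k) L (∑ q, (pderiv q (P i) * Q i - P i * pderiv q (Q i)) *
      γ j q) = algebraMap (MvPolynomial σ k) L b * ∑ q, algebraMap (MvPolynomial σ k) L
      (pderiv q (P i) * Q i - P i * pderiv q (Q i)) *
        D j (algebraMap (MvPolynomial σ k) L (X q)) := by
    rw [map_sum, Finset.mul_sum]
    refine Finset.sum_congr rfl fun q _ => ?_
    rw [map_mul, hγ]
    ring
  rw [h4, h3]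
  by_cases hij : i = j
  · rw [if_pos hij, if_pos hij, map_mul, map_pow, mul_one]
  · rw [if_neg hij, if_neg hij, map_zero, mul_zero, mul_zero]

omit [Fintype σ] in
/-- Algebraic independence of fractions, from the algebraic independence of functions. -/
theorem abs_ind {Y : Type} [Nonempty Y] (a : ℕ) (x : Y → σ → k) (t : Fin a → Y → k)
    (P Q : Fin a → MvPolynomial σ k)
    (h : ∀ i y, eval (x y) (Q i) ≠ 0 ∧ t i y = eval (x y) (P i) / eval (x y) (Q i))
    (ht : AlgebraicIndependent k t) :
    AlgebraicIndependent k (fun i => algebraMap (MvPolynomial σ k)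
      (FractionRing (MvPolynomial σ k)) (P i) / algebraMap (MvPolynomial σ k)
      (FractionRing (MvPolynomial σ k)) (Q i)) := by
  classical
  set L := FractionRing (MvPolynomial σ k) with hL
  let M : Submonoid (MvPolynomial σ k) :=
    { carrier := {R | ∀ y, eval (x y) R ≠ 0}
      one_mem' := fun y => by rw [map_one]; exact one_ne_zero
      mul_mem' := fun {a b} ha hb y => by rw [map_mul]; exact mul_ne_zero (ha y) (hb y) }
  have hM : ∀ i, Q i ∈ M := fun i y => (h i y).1
  have hM0 : M ≤ nonZeroDivisors (MvPolynomial σ k) := by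
    intro R hR
    refine mem_nonZeroDivisors_of_ne_zero fun h0 => ?_
    obtain ⟨y⟩ := ‹Nonempty Y›
    exact hR y (by rw [h0, map_zero])
  let A := Localization M
  -- functions
  let f1 : MvPolynomial σ k →ₐ[k] (Y → k) := AlgHom.pi fun y => aeval (x y)
  have hf1 : ∀ R y, f1 R y = eval (x y) R := fun R y => by
    change aeval (x y) R = _
    rw [aeval_eq_eval]
  have hu1 : ∀ R : M, IsUnit (f1 R) := by
    intro R
    refine isUnit_iff_exists_inv.2 ⟨fun y => (eval (x y) R.1)⁻¹, ?_⟩
    funext y
    rw [Pi.mul_apply, hf1, mul_inv_cancel₀ (R.2 y)]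
    rfl
  let ρ : A →ₐ[k] (Y → k) := IsLocalization.liftAlgHom (M := M) (f := f1) hu1
  -- fractions
  let f2 : MvPolynomial σ k →ₐ[k] L := IsScalarTower.toAlgHom k (MvPolynomial σ k) L
  have hf2 : ∀ R, f2 R = algebraMap (MvPolynomial σ k) L R := fun R => rfl
  have hinj : Function.Injective (algebraMap (MvPolynomial σ k) L) := IsFractionRing.injective _ _
  have hu2 : ∀ R : M, IsUnit (f2 R) := by
    intro R
    rw [hf2, isUnit_iff_ne_zero]
    intro h0
    exact nonZeroDivisors.ne_zero (hM0 R.2) (hinj (by rw [h0, map_zero]))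
  let ι : A →ₐ[k] L := IsLocalization.liftAlgHom (M := M) (f := f2) hu2
  have hι : Function.Injective ι := by
    change Function.Injective (IsLocalization.lift (M := M) (g := f2.toRingHom) hu2)
    rw [IsLocalization.lift_injective_iff]
    intro R S
    constructor
    · intro h0
      exact congrArg f2 (IsLocalization.injective A hM0 h0)
    · intro h0
      exact congrArg _ (hinj h0)
  let τ : Fin a → A := fun i => IsLocalization.mk' A (P i) ⟨Q i, hM i⟩
  have h1 : (fun i => ρ (τ i)) = t := by
    funext i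
    have e1 : ρ (τ i) * f1 (Q i) = f1 (P i) := by
      have e3 : ∀ R, ρ (algebraMap (MvPolynomial σ k) A R) = f1 R := fun R =>
        IsLocalization.lift_eq (M := M) (g := f1.toRingHom) hu1 R
      rw [← e3, ← e3, ← map_mul]
      exact congrArg ρ (IsLocalization.mk'_spec A (P i) ⟨Q i, hM i⟩)
    funext y
    have e2 := congrFun e1 y
    rw [Pi.mul_apply, hf1, hf1] at e2
    rw [(h i y).2, eq_div_iff (h i y).1, e2]
  have h2 : (fun i => ι (τ i)) = fun i => algebraMap (MvPolynomial σ k) L (P i) /
      algebraMap (MvPolynomial σ k) L (Q i) := by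
    funext i
    have e1 : ι (τ i) * f2 (Q i) = f2 (P i) := by
      have e3 : ∀ R, ι (algebraMap (MvPolynomial σ k) A R) = f2 R := fun R =>
        IsLocalization.lift_eq (M := M) (g := f2.toRingHom) hu2 R
      rw [← e3, ← e3, ← map_mul]
      exact congrArg ι (IsLocalization.mk'_spec A (P i) ⟨Q i, hM i⟩)
    rw [eq_div_iff]
    · exact e1
    · exact (hu2 ⟨Q i, hM i⟩).ne_zero
  have h3 : AlgebraicIndependent k τ := by
    refine AlgebraicIndependent.of_comp ρ ?_
    have : (⇑ρ ∘ τ) = t := h1
    rw [this]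
    exact ht
  have h4 := h3.map' (f := ι) hι
  have h5 : (⇑ι ∘ τ) = fun i => algebraMap (MvPolynomial σ k) L (P i) /
      algebraMap (MvPolynomial σ k) L (Q i) := h2
  rw [h5] at h4
  exact h4

end abs

theorem t_JAC (n d : ℕ) (k : Type) [Field k] [IsAlgClosed k] [CharZero k]
    (_hn : 3 ≤ n) (_hd : 2 ≤ d) (hres : S_RES n d k) (_hrep : S_REPU n d k) (du : S_DU n d k) :
    S_JAC n d k := by
  classical
  obtain ⟨Θ, hΘ⟩ := hres
  have hΘ0 : Θ ≠ 0 := hΘ.irr.ne_zero
  intro a t hreg ht
  choose P Q hPQ using hreg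
  have hex : ∀ g : MvPolynomial (Ix n d) k, g ≠ 0 → ∃ c : U n d k, eval c.1 g ≠ 0 := by
    intro g hg
    by_contra hcon
    push Not at hcon
    have h1 : Θ * g = 0 := by
      apply MvPolynomial.funext
      intro c
      rw [map_mul, map_zero]
      by_cases hc : eval c Θ = 0
      · rw [hc, zero_mul]
      · rw [hcon ⟨c, (hΘ.iff c).1 hc⟩, mul_zero]
    exact (mul_ne_zero hΘ0 hg) h1
  obtain ⟨c0, -⟩ := hex 1 one_ne_zero
  have : Nonempty (U n d k) := ⟨c0⟩
  have hind := abs_ind a (fun y : U n d k => y.1) t P Q (fun i y => hPQ i y) ht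
  have hQ0 : ∀ i, Q i ≠ 0 := fun i h0 => (hPQ i c0).1 (by rw [h0, map_zero])
  obtain ⟨g, γ, hg, hγ⟩ := abs_jac a P Q hQ0 hind
  obtain ⟨c, hc⟩ := hex g hg
  refine ⟨c, ?_⟩
  rw [Fintype.linearIndependent_iff]
  intro β hβ j
  have h1 : ∀ i q, dU (t i) c (Pi.single q 1) * eval c.1 (Q i) ^ 2 =
      eval c.1 (pderiv q (P i) * Q i - P i * pderiv q (Q i)) := by
    intro i q
    have h2 := du.rep (t i) (P i) (Q i) (hPQ i) c (Pi.single q 1)
    have h3 : ∀ R : MvPolynomial (Ix n d) k, dd R c.1 (Pi.single q 1) = eval c.1 (pderiv q R) := by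
      intro R
      unfold dd
      rw [Finset.sum_eq_single q]
      · rw [Pi.single_eq_same, one_mul]
      · intro b _ hb
        rw [Pi.single_eq_of_ne hb, zero_mul]
      · intro h; exact absurd (Finset.mem_univ _) h
    rw [h2, h3, h3, div_mul_cancel₀ _ (pow_ne_zero 2 (hPQ i c).1), map_sub, map_mul, map_mul]
  have h4 : ∀ i, ∑ q, dU (t i) c (Pi.single q 1) * eval c.1 (γ j q) =
      if i = j then eval c.1 g else 0 := by
    intro i
    have h5 := congrArg (eval c.1) (hγ i j)
    rw [map_sum] at h5
    have h6 : (∑ q, dU (t i) c (Pi.single q 1) * eval c.1 (γ j q)) * eval c.1 (Q i) ^ 2 =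
        (if i = j then eval c.1 g else 0) * eval c.1 (Q i) ^ 2 := by
      have h7 : (∑ q, dU (t i) c (Pi.single q 1) * eval c.1 (γ j q)) * eval c.1 (Q i) ^ 2 =
          ∑ q, eval c.1 ((pderiv q (P i) * Q i - P i * pderiv q (Q i)) * γ j q) := by
        rw [Finset.sum_mul]
        refine Finset.sum_congr rfl fun q _ => ?_
        rw [map_mul, ← h1]
        ring
      rw [h7, h5]
      by_cases hij : i = j
      · rw [if_pos hij, if_pos hij, map_mul, map_pow]
      · rw [if_neg hij, if_neg hij, map_zero, zero_mul]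
    exact mul_right_cancel₀ (pow_ne_zero 2 (hPQ i c).1) h6
  have h8 : ∑ q, (∑ i, β i * dU (t i) c (Pi.single q 1)) * eval c.1 (γ j q) = 0 := by
    refine Finset.sum_eq_zero fun q _ => ?_
    have h9 := congrFun hβ q
    rw [Finset.sum_apply] at h9
    simp only [Pi.smul_apply, smul_eq_mul, Pi.zero_apply] at h9
    rw [h9, zero_mul]
  have h10 : ∑ q, (∑ i, β i * dU (t i) c (Pi.single q 1)) * eval c.1 (γ j q) =
      ∑ i, β i * ∑ q, dU (t i) c (Pi.single q 1) * eval c.1 (γ j q) := by
    simp only [Finset.sum_mul, Finset.mul_sum]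
    rw [Finset.sum_comm]
    refine Finset.sum_congr rfl fun i _ => Finset.sum_congr rfl fun q _ => by ring
  rw [h10] at h8
  simp only [h4] at h8
  rw [Finset.sum_eq_single j] at h8
  · rw [if_pos rfl] at h8
    exact (mul_eq_zero.1 h8).resolve_right hc
  · intro i _ hij
    rw [if_neg hij, mul_zero]
  · intro h; exact absurd (Finset.mem_univ _) h

end

end Run7.h939.MD
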