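import Pool.Agent.Run7.h342.MD.Stm

/-!
Piece SPAN of project MD (helper342).
-/

namespace Run7.h939.MD

open MvPolynomial Run7.h342.MD

noncomputable section

section abs

variable {A κ ι : Type*} [CommRing A] [Field κ] {r : ℕ}

/-- Nakayama for differentials, abstract form. -/
theorem abs_span [IsNoetherianRing A] [Finite ι] (e : A →+* κ) (σ : κ →+* A)
    (hσ : ∀ a, e (σ a) = a) (D : A → ι → A) (hadd : ∀ a b, D (a + b) = D a + D b)
    (hmul : ∀ a b, D (a * b) = a • D b + b • D a) (hσD : ∀ a, D (σ a) = 0)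
    (S : Set A) (hS : ∀ φ ∈ S, φ + σ (-(e φ)) ∈ S) (t : Fin r → A)
    (ht0 : ∀ i, e (t i) = 0)
    (ht : ∀ φ ∈ S, e φ = 0 → ∃ s ∈ S, e s ≠ 0 ∧ ∃ a : Fin r → A, (∀ i, a i ∈ S) ∧
      s * φ = ∑ i, a i * t i) :
    ∃ b : A, e b = 1 ∧ ∀ φ ∈ S, ∃ c : Fin r → A, ∀ q, b * D φ q = ∑ i, c i * D (t i) q := by
  have hsum : ∀ a : Fin r → A, D (∑ i, a i) = ∑ i, D (a i) := by
    intro a
    have h0 : D 0 = 0 := by
      have := hσD 0
      rwa [map_zero] at this
    let L : A →+ (ι → A) := { toFun := D, map_zero' := h0, map_add' := hadd }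
    exact map_sum L a Finset.univ
  let M : Submodule A (ι → A) := Submodule.span A (D '' S)
  let N : Submodule A (ι → A) := Submodule.span A (Set.range fun i => D (t i))
  let I : Ideal A := RingHom.ker e
  have hM : ∀ φ ∈ S, D φ ∈ M := fun φ h => Submodule.subset_span ⟨φ, h, rfl⟩
  have hN : ∀ i, D (t i) ∈ N := fun i => Submodule.subset_span ⟨i, rfl⟩
  have hsm : ∀ (b : A) (x : ι → A), e b = 0 → x ∈ M → b • x ∈ N ⊔ I • M :=
    fun b x hb hx => Submodule.mem_sup_right (Submodule.smul_mem_smul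
      (show b ∈ I from RingHom.mem_ker.2 hb) hx)
  have hle : M ≤ N ⊔ I • M := by
    rw [Submodule.span_le]
    rintro x ⟨φ, hφ, rfl⟩
    change D φ ∈ N ⊔ I • M
    set ψ : A := φ + σ (-(e φ)) with hψ
    have h1 : D ψ = D φ := by
      rw [hψ, hadd, hσD, add_zero]
    have h2 : e ψ = 0 := by
      rw [hψ, map_add, hσ]
      ring
    have h3 : ψ ∈ S := hS φ hφ
    obtain ⟨s, hs, hsF, a, ha, hsum'⟩ := ht ψ h3 h2
    have h5 : s • D ψ + ψ • D s = ∑ i, (a i • D (t i) + t i • D (a i)) := by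
      rw [← hmul, hsum', hsum]
      exact Finset.sum_congr rfl fun i _ => hmul _ _
    have h6 : s • D ψ ∈ N ⊔ I • M := by
      rw [eq_sub_of_add_eq h5]
      refine Submodule.sub_mem _ (Submodule.sum_mem _ fun i _ => Submodule.add_mem _ ?_ ?_) ?_
      · exact Submodule.mem_sup_left (N.smul_mem _ (hN i))
      · exact hsm _ _ (ht0 i) (hM _ (ha i))
      · exact hsm _ _ h2 (hM _ hs)
    have h7 : D ψ = σ (e s)⁻¹ • (s • D ψ - (s - σ (e s)) • D ψ) := by
      rw [← sub_smul, sub_sub_cancel, smul_smul, ← map_mul, inv_mul_cancel₀ hsF, map_one,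
        one_smul]
    rw [← h1, h7]
    refine Submodule.smul_mem _ _ (Submodule.sub_mem _ h6 (hsm _ _ ?_ (hM _ h3)))
    rw [map_sub, hσ, sub_self]
  have hfg : M.FG := IsNoetherian.noetherian M
  obtain ⟨b, hb, hbM⟩ := Submodule.exists_sub_one_mem_and_smul_le_of_fg_of_le_sup hfg le_rfl hle
  have hbF : e b = 1 := by
    have h1 : e (b - 1) = 0 := RingHom.mem_ker.1 hb
    rw [map_sub, map_one, sub_eq_zero] at h1
    exact h1
  refine ⟨b, hbF, fun φ hφ => ?_⟩
  have h1 : b • D φ ∈ N := hbM (Submodule.smul_mem_pointwise_smul _ _ _ (hM _ hφ))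
  obtain ⟨c, hc⟩ := (Submodule.mem_span_range_iff_exists_fun _).1 h1
  refine ⟨c, fun q => ?_⟩
  have h3 := congrFun hc q
  rw [Finset.sum_apply, Pi.smul_apply, smul_eq_mul] at h3
  rw [← h3]
  refine Finset.sum_congr rfl fun i _ => ?_
  rw [Pi.smul_apply, smul_eq_mul]

end abs

variable {n d : ℕ} {k : Type} [Field k]

theorem dU_sum_v [IsAlgClosed k] [CharZero k] (du : S_DU n d k) (φ : U n d k → k) (h : RegU φ)
    (c : U n d k) (v : Ix n d → k) : dU φ c v = ∑ q, v q * dU φ c (Pi.single q 1) := by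
  let L : (Ix n d → k) →ₗ[k] k :=
    { toFun := fun v => dU φ c v
      map_add' := fun v v' => du.add_v φ h c v v'
      map_smul' := fun a v => du.smul_v φ h c a v }
  have h1 := L.pi_apply_eq_sum_univ v
  have h2 : ∀ q : Ix n d, (fun j => if q = j then (1 : k) else 0) = Pi.single q 1 := by
    intro q
    funext j
    by_cases hj : q = j
    · subst hj; simp
    · rw [if_neg hj, Pi.single_eq_of_ne (fun h => hj h.symm)]
  simp only [h2, smul_eq_mul] at h1
  exact h1

/-- the differential as an element of a free module -/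
def Df [IsAlgClosed k] [CharZero k] (du : S_DU n d k) (φ : OU n d k) : Ix n d → OU n d k :=
  fun q => ⟨fun c => dU φ.1 c (Pi.single q 1), du.reg φ.1 φ.2 _⟩

theorem Df_add [IsAlgClosed k] [CharZero k] (du : S_DU n d k) (a b : OU n d k) :
    Df du (a + b) = Df du a + Df du b := by
  funext q
  apply Subtype.ext
  funext c
  exact du.add a.1 b.1 a.2 b.2 c _

theorem Df_mul [IsAlgClosed k] [CharZero k] (du : S_DU n d k) (a b : OU n d k) :
    Df du (a * b) = a • Df du b + b • Df du a := by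
  funext q
  apply Subtype.ext
  funext c
  exact du.mul a.1 b.1 a.2 b.2 c _

theorem Df_const [IsAlgClosed k] [CharZero k] (du : S_DU n d k) (a : k) :
    Df du (algebraMap k (OU n d k) a) = 0 := by
  funext q
  apply Subtype.ext
  funext c
  exact du.const a c _

/-- evaluation at a point -/
def evp (F : U n d k) : OU n d k →+* k :=
  (Pi.evalRingHom (fun _ : U n d k => k) F).comp (OU n d k).toSubring.subtype

theorem evp_apply (F : U n d k) (a : OU n d k) : evp F a = a.1 F := rfl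

theorem evp_Df [IsAlgClosed k] [CharZero k] (du : S_DU n d k) (F : U n d k) (a : OU n d k)
    (q : Ix n d) : evp F (Df du a q) = dU a.1 F (Pi.single q 1) := rfl

theorem key [IsAlgClosed k] [CharZero k] (du : S_DU n d k)
    (hno : IsNoetherianRing (OU n d k)) (F : U n d k) (r : ℕ) (t : Fin r → U n d k → k)
    (ht : IsGen F t) : ∃ b : OU n d k, b.1 F = 1 ∧ ∀ φ : OU n d k, φ.1 ∈ Inv n d k →
      ∃ c : Fin r → OU n d k, ∀ q, b * Df du φ q =
        ∑ i, c i * Df du ⟨t i, (ht.mem i).1⟩ q := by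
  refine abs_span (evp F) (algebraMap k (OU n d k)) (fun a => rfl) (Df du) (Df_add du)
    (Df_mul du) (Df_const du) {φ | φ.1 ∈ Inv n d k} (fun φ hφ => ?_)
    (fun i => ⟨t i, (ht.mem i).1⟩) (fun i => ht.zero i) (fun φ hφ h0 => ?_)
  · exact (Inv n d k).add_mem hφ ((Inv n d k).algebraMap_mem _)
  · obtain ⟨s, hs, hsF, a, ha, hsum⟩ := ht.gen φ.1 hφ h0
    refine ⟨⟨s, hs.1⟩, hs, hsF, fun i => ⟨a i, (ha i).1⟩, ha, ?_⟩
    apply Subtype.ext
    have : ((∑ i, (⟨a i, (ha i).1⟩ : OU n d k) * ⟨t i, (ht.mem i).1⟩ : OU n d k) :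
        U n d k → k) = ∑ i, a i * t i := by
      rw [AddSubmonoidClass.coe_finsetSum]
      rfl
    rw [this, ← hsum]
    rfl

theorem t_SPAN (n d : ℕ) (k : Type) [Field k] [IsAlgClosed k] [CharZero k]
    (_hn : 3 ≤ n) (_hd : 2 ≤ d) (hres : S_RES n d k) (hrep : S_REPU n d k) (du : S_DU n d k) :
    S_SPAN n d k := by
  obtain ⟨Θ, hΘ⟩ := hres
  have hft : Algebra.FiniteType k (OU n d k) := (hrep Θ hΘ).2
  have hno : IsNoetherianRing (OU n d k) := Algebra.FiniteType.isNoetherianRing k (OU n d k)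
  intro F r t ht
  obtain ⟨b, hbF, hb⟩ := key du hno F r t ht
  obtain ⟨P, Q, hPQ⟩ := b.2
  refine ⟨P, ?_, ?_⟩
  · intro h0
    have := (hPQ F).2
    rw [h0, zero_div] at this
    rw [hbF] at this
    exact one_ne_zero this
  · intro h hh φ hφ
    have hbh : b.1 h ≠ 0 := by
      rw [(hPQ h).2]
      exact div_ne_zero hh (hPQ h).1
    obtain ⟨c, hc⟩ := hb ⟨φ, hφ.1⟩ hφ
    refine ⟨fun i => (b.1 h)⁻¹ * (c i).1 h, fun v => ?_⟩
    have h2 : ∀ q, b.1 h * dU φ h (Pi.single q 1) =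
        ∑ i, (c i).1 h * dU (t i) h (Pi.single q 1) := by
      intro q
      have h3 := congrArg (evp h) (hc q)
      rw [map_mul, map_sum] at h3
      simp only [map_mul] at h3
      exact h3
    rw [dU_sum_v du φ hφ.1 h v]
    have h4 : ∀ i, dU (t i) h v = ∑ q, v q * dU (t i) h (Pi.single q 1) := fun i =>
      dU_sum_v du (t i) (ht.mem i).1 h v
    simp only [h4, Finset.mul_sum]
    rw [Finset.sum_comm]
    refine Finset.sum_congr rfl fun q _ => ?_
    have h5 : dU φ h (Pi.single q 1) = (b.1 h)⁻¹ * ∑ i, (c i).1 h * dU (t i) h (Pi.single q 1) := by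
      rw [← h2 q, ← mul_assoc, inv_mul_cancel₀ hbh, one_mul]
    rw [h5, Finset.mul_sum, Finset.mul_sum]
    refine Finset.sum_congr rfl fun i _ => ?_
    ring

end

end Run7.h939.MD
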